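import Mathlib

set_option autoImplicit false

/-!
# A strongly connected two-player preference graph without a 4-cycle

We exhibit a strict two-player game with strategy sets of sizes 4 and 5 whose preference graph is
strongly connected but contains no 4-cycle.  This refutes the statement of the problem.
-/

namespace Pool.Agent.Results.MP_69f1cd_co.NoFourCycle

/-- The arcs of the preference graph of the two-player game with strategy sets `S`, `T` and payoff
functions `u₁`, `u₂`.  The first player moves along the first coordinate, the second player along the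
second; an arc goes to the profile which the moving player strictly prefers. -/
def Arc {S T : Type} (u₁ u₂ : S → T → ℝ) (p q : S × T) : Prop :=
  (p.2 = q.2 ∧ p.1 ≠ q.1 ∧ u₁ p.1 p.2 < u₁ q.1 p.2) ∨
  (p.1 = q.1 ∧ p.2 ≠ q.2 ∧ u₂ p.1 p.2 < u₂ p.1 q.2)

/-- Strong connectivity: every profile is reached from every profile along a directed path. -/
def StronglyConnected {P : Type} (A : P → P → Prop) : Prop :=
  ∀ p q, Relation.ReflTransGen A p q

/-- A directed cycle through four distinct vertices. -/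
def HasFourCycle {P : Type} (A : P → P → Prop) : Prop :=
  ∃ a b c d : P, a ≠ b ∧ a ≠ c ∧ a ≠ d ∧ b ≠ c ∧ b ≠ d ∧ c ≠ d ∧ A a b ∧ A b c ∧ A c d ∧ A d a

/-- A strict game: no player is ever indifferent between two of their strategies. -/
def Strict {S T : Type} (u₁ u₂ : S → T → ℝ) : Prop :=
  (∀ s s' t, s ≠ s' → u₁ s t ≠ u₁ s' t) ∧ (∀ s t t', t ≠ t' → u₂ s t ≠ u₂ s t')

/-- natural number payoffs of the first player -/
def w1 (s : Fin 4) (t : Fin 5) : ℕ :=
  (![![3, 2, 1, 0], ![3, 0, 2, 1], ![1, 0, 3, 2], ![0, 3, 2, 1], ![2, 1, 0, 3]] : Fin 5 → Fin 4 → ℕ) t s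

/-- natural number payoffs of the second player -/
def w2 (s : Fin 4) (t : Fin 5) : ℕ :=
  (![![2, 3, 0, 1, 4], ![4, 3, 1, 2, 0], ![0, 4, 2, 3, 1], ![2, 1, 4, 0, 3]] : Fin 4 → Fin 5 → ℕ) s t

/-- decidable version of the arcs -/
def arcB (p q : Fin 4 × Fin 5) : Bool :=
  (decide (p.2 = q.2) && decide (w1 p.1 p.2 < w1 q.1 p.2)) ||
  (decide (p.1 = q.1) && decide (w2 p.1 p.2 < w2 p.1 q.2))

theorem arc_iff (p q : Fin 4 × Fin 5) :
    Arc (fun s t => (w1 s t : ℝ)) (fun s t => (w2 s t : ℝ)) p q ↔ arcB p q = true := by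
  simp only [Arc, arcB, Bool.or_eq_true, Bool.and_eq_true, decide_eq_true_eq, Nat.cast_lt]
  constructor
  · rintro (⟨h1, _, h3⟩ | ⟨h1, _, h3⟩)
    · exact Or.inl ⟨h1, h3⟩
    · exact Or.inr ⟨h1, h3⟩
  · rintro (⟨h1, h3⟩ | ⟨h1, h3⟩)
    · refine Or.inl ⟨h1, ?_, h3⟩
      intro h
      rw [h] at h3
      exact lt_irrefl _ h3
    · refine Or.inr ⟨h1, ?_, h3⟩
      intro h
      rw [h] at h3
      exact lt_irrefl _ h3

theorem no_four (a b c d : Fin 4 × Fin 5) :
    arcB a b = true → arcB b c = true → arcB c d = true → arcB d a = true → False := by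
  have key : ∀ a b : Fin 4 × Fin 5, arcB a b = true → ∀ c : Fin 4 × Fin 5, arcB b c = true →
      ∀ d : Fin 4 × Fin 5, arcB c d = true → arcB d a = false := by
    decide +kernel
  intro h1 h2 h3 h4
  rw [key a b h1 c h2 d h3] at h4
  exact Bool.noConfusion h4

/-- a closed walk through all twenty profiles -/
def W (i : ℕ) : Fin 4 × Fin 5 :=
  ([(0, 0), (0, 1), (0, 4), (3, 4), (3, 2), (2, 2), (2, 1), (0, 1), (0, 4), (3, 4), (3, 2),
    (2, 2), (2, 3), (1, 3), (1, 0), (0, 0), (0, 4), (3, 4), (3, 2), (2, 2), (2, 3), (1, 3),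
    (1, 1), (3, 1), (3, 0), (2, 0), (2, 4), (1, 4), (1, 2), (0, 2), (0, 3), (3, 3), (3, 0)] :
      List (Fin 4 × Fin 5)).getD (i % 33) (0, 0)

theorem W_arc (i : ℕ) : arcB (W i) (W (i + 1)) = true := by
  have key : ∀ j : Fin 33, arcB (W j) (W (j + 1)) = true := by decide +kernel
  have h := key ⟨i % 33, Nat.mod_lt _ (by norm_num)⟩
  have h1 : W (i % 33) = W i := by simp [W]
  have h2 : W (i % 33 + 1) = W (i + 1) := by simp [W]
  simp only [h1, h2] at h
  exact h

theorem W_surj (p : Fin 4 × Fin 5) : ∃ i, i < 33 ∧ W i = p := by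
  have key : ∀ p : Fin 4 × Fin 5, ∃ j : Fin 33, W j = p := by decide +kernel
  obtain ⟨j, hj⟩ := key p
  exact ⟨j, j.2, hj⟩

theorem W_periodic (i : ℕ) : W (i + 33) = W i := by simp [W]

/-- There is a strict two-player game with strategy sets of sizes 4 and 5 whose preference graph is
strongly connected and has no 4-cycle. -/
theorem result :
    ∃ u₁ u₂ : Fin 4 → Fin 5 → ℝ, Strict u₁ u₂ ∧ StronglyConnected (Arc u₁ u₂) ∧
      ¬ HasFourCycle (Arc u₁ u₂) := by
  refine ⟨fun s t => (w1 s t : ℝ), fun s t => (w2 s t : ℝ), ⟨?_, ?_⟩, ?_, ?_⟩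
  · have key : ∀ s s' : Fin 4, ∀ t : Fin 5, s ≠ s' → w1 s t ≠ w1 s' t := by decide +kernel
    intro s s' t h h'
    exact key s s' t h (Nat.cast_injective (R := ℝ) h')
  · have key : ∀ s : Fin 4, ∀ t t' : Fin 5, t ≠ t' → w2 s t ≠ w2 s t' := by decide +kernel
    intro s t t' h h'
    exact key s t t' h (Nat.cast_injective (R := ℝ) h')
  · intro p q
    obtain ⟨i, hi, rfl⟩ := W_surj p
    obtain ⟨j, _, rfl⟩ := W_surj q
    have hk : ∀ k : ℕ, Relation.ReflTransGen (Arc (fun s t => (w1 s t : ℝ))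
        (fun s t => (w2 s t : ℝ))) (W i) (W (i + k)) := by
      intro k
      induction k with
      | zero => exact Relation.ReflTransGen.refl
      | succ k ih => exact ih.tail ((arc_iff _ _).2 (W_arc (i + k)))
    have h := hk (j + 33 - i)
    have h2 : i + (j + 33 - i) = j + 33 := by omega
    rw [h2, W_periodic] at h
    exact h
  · rintro ⟨a, b, c, d, _, _, _, _, _, _, h1, h2, h3, h4⟩
    exact no_four a b c d ((arc_iff _ _).1 h1) ((arc_iff _ _).1 h2) ((arc_iff _ _).1 h3)
      ((arc_iff _ _).1 h4)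

end Pool.Agent.Results.MP_69f1cd_co.NoFourCycle
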